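import Pool.Agent.W809.ZQ.Stm

/-!
# ZQ-NSS: a Lie group has no small subgroups
-/

set_option autoImplicit false

open Set Filter Topology
open scoped Manifold ContDiff

namespace Pool.Agent.W486.ZQ

open Pool.Agent.W809.ZQ

section

variable {E : Type} [NormedAddCommGroup E] [NormedSpace ℝ E]
  {K : Type} [TopologicalSpace K] [ChartedSpace E K] [Group K]
  [LieGroup (modelWithCornersSelf ℝ E) 1 K]

/-- the product in the chart `φ` -/
def mm (φ : OpenPartialHomeomorph K E) (p : E × E) : E := φ (φ.symm p.1 * φ.symm p.2)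

/-- its domain -/
def Om (φ : OpenPartialHomeomorph K E) : Set (E × E) :=
  {p | (p.1 ∈ φ.target ∧ p.2 ∈ φ.target) ∧ φ.symm p.1 * φ.symm p.2 ∈ φ.source}

theorem Om_open (φ : OpenPartialHomeomorph K E) : IsOpen (Om φ) := by
  have hmul : Continuous (fun p : K × K => p.1 * p.2) :=
    (contMDiff_mul (modelWithCornersSelf ℝ E) 1 (G := K)).continuous
  have h2 : ContinuousOn (fun p : E × E => (φ.symm p.1, φ.symm p.2))
      {p | p.1 ∈ φ.target ∧ p.2 ∈ φ.target} :=
    (φ.continuousOn_symm.comp continuousOn_fst (fun p hp => hp.1)).prodMk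
      (φ.continuousOn_symm.comp continuousOn_snd (fun p hp => hp.2))
  have h3 : ContinuousOn (fun p : E × E => φ.symm p.1 * φ.symm p.2)
      {p | p.1 ∈ φ.target ∧ p.2 ∈ φ.target} := hmul.comp_continuousOn h2
  have ho : IsOpen {p : E × E | p.1 ∈ φ.target ∧ p.2 ∈ φ.target} :=
    (φ.open_target.preimage continuous_fst).inter (φ.open_target.preimage continuous_snd)
  exact h3.isOpen_inter_preimage ho φ.open_source

theorem mm_smooth {φ : OpenPartialHomeomorph K E}
    (hm : φ ∈ IsManifold.maximalAtlas (modelWithCornersSelf ℝ E) 1 K) :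
    ContDiffOn ℝ 1 (mm φ) (Om φ) := by
  have h0 : ContMDiffOn ((modelWithCornersSelf ℝ E).prod (modelWithCornersSelf ℝ E))
      ((modelWithCornersSelf ℝ E).prod (modelWithCornersSelf ℝ E)) 1
      (fun p : E × E => (φ.symm p.1, φ.symm p.2)) (Om φ) :=
    ((contMDiffOn_symm_of_mem_maximalAtlas hm).comp contMDiffOn_fst
      (fun p hp => hp.1.1)).prodMk ((contMDiffOn_symm_of_mem_maximalAtlas hm).comp contMDiffOn_snd
      (fun p hp => hp.1.2))
  have h1 : ContMDiffOn ((modelWithCornersSelf ℝ E).prod (modelWithCornersSelf ℝ E))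
      (modelWithCornersSelf ℝ E) 1
      (fun p : E × E => φ.symm p.1 * φ.symm p.2) (Om φ) :=
    (contMDiff_mul (modelWithCornersSelf ℝ E) 1 (G := K)).comp_contMDiffOn h0
  have h2 : ContMDiffOn ((modelWithCornersSelf ℝ E).prod (modelWithCornersSelf ℝ E))
      (modelWithCornersSelf ℝ E) 1 (mm φ) (Om φ) :=
    (contMDiffOn_of_mem_maximalAtlas hm).comp h1 (fun p hp => hp.2)
  have h3 : ContMDiffOn 𝓘(ℝ, E × E) 𝓘(ℝ, E) 1 (mm φ) (Om φ) := by
    rw [modelWithCornersSelf_prod, ← chartedSpaceSelf_prod]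
    exact h2
  exact h3.contDiffOn

theorem sq_deriv {φ : OpenPartialHomeomorph K E}
    (hm : φ ∈ IsManifold.maximalAtlas (modelWithCornersSelf ℝ E) 1 K)
    (h1 : (1 : K) ∈ φ.source) :
    HasFDerivAt (fun x : E => mm φ (x, x)) ((2 : ℝ) • ContinuousLinearMap.id ℝ E) (φ 1) := by
  have ht : φ 1 ∈ φ.target := φ.map_source h1
  have hs1 : φ.symm (φ 1) = 1 := φ.left_inv h1
  have h0 : (φ 1, φ 1) ∈ Om φ := by
    refine ⟨⟨ht, ht⟩, ?_⟩
    simp only [hs1, mul_one]
    exact h1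
  have hG : HasFDerivAt (mm φ) (fderiv ℝ (mm φ) (φ 1, φ 1)) (φ 1, φ 1) :=
    (((mm_smooth hm).contDiffAt ((Om_open φ).mem_nhds h0)).differentiableAt
      (by simp)).hasFDerivAt
  set G' := fderiv ℝ (mm φ) (φ 1, φ 1) with hG'
  have a1 : HasFDerivAt (fun x : E => mm φ (x, φ 1)) (G'.comp (ContinuousLinearMap.inl ℝ _ _))
      (φ 1) := by
    have h : HasFDerivAt (fun x : E => ((x, φ 1) : E × E))
        (ContinuousLinearMap.inl ℝ E E) (φ 1) := hasFDerivAt_prodMk_left _ _
    exact HasFDerivAt.comp (f := fun x : E => ((x, φ 1) : E × E)) (φ 1) hG h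
  have a2 : HasFDerivAt (fun x : E => mm φ (φ 1, x)) (G'.comp (ContinuousLinearMap.inr ℝ _ _))
      (φ 1) := by
    have h : HasFDerivAt (fun x : E => ((φ 1, x) : E × E))
        (ContinuousLinearMap.inr ℝ E E) (φ 1) := hasFDerivAt_prodMk_right _ _
    exact HasFDerivAt.comp (f := fun x : E => ((φ 1, x) : E × E)) (φ 1) hG h
  have b1 : HasFDerivAt (fun x : E => mm φ (x, φ 1)) (ContinuousLinearMap.id ℝ E) (φ 1) := by
    refine (hasFDerivAt_id (φ 1)).congr_of_eventuallyEq ?_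
    filter_upwards [φ.open_target.mem_nhds ht] with w hw
    simp only [mm, id, hs1, mul_one]
    exact φ.right_inv hw
  have b2 : HasFDerivAt (fun x : E => mm φ (φ 1, x)) (ContinuousLinearMap.id ℝ E) (φ 1) := by
    refine (hasFDerivAt_id (φ 1)).congr_of_eventuallyEq ?_
    filter_upwards [φ.open_target.mem_nhds ht] with w hw
    simp only [mm, id, hs1, one_mul]
    exact φ.right_inv hw
  have c1 := a1.unique b1
  have c2 := a2.unique b2
  have hd : HasFDerivAt (fun x : E => ((x, x) : E × E))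
      ((ContinuousLinearMap.id ℝ E).prod (ContinuousLinearMap.id ℝ E)) (φ 1) :=
    (hasFDerivAt_id (φ 1)).prodMk (hasFDerivAt_id (φ 1))
  have h3 : HasFDerivAt (fun x : E => mm φ (x, x))
      (G'.comp ((ContinuousLinearMap.id ℝ E).prod (ContinuousLinearMap.id ℝ E))) (φ 1) :=
    HasFDerivAt.comp (f := fun x : E => ((x, x) : E × E)) (φ 1) hG hd
  have e : (2 : ℝ) • ContinuousLinearMap.id ℝ E
      = G'.comp ((ContinuousLinearMap.id ℝ E).prod (ContinuousLinearMap.id ℝ E)) := by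
    refine ContinuousLinearMap.ext fun u => ?_
    have d1 : G' (u, 0) = u := DFunLike.congr_fun c1 u
    have d2 : G' (0, u) = u := DFunLike.congr_fun c2 u
    change (2 : ℝ) • u = G' (u, u)
    have : ((u, u) : E × E) = (u, 0) + (0, u) := by simp
    rw [this, map_add, d1, d2, two_smul]
  rw [e]
  exact h3

end

theorem nss : S_NSS := by
  intro E _ _ _ K _ _ _ _ _
  set φ : OpenPartialHomeomorph K E := chartAt E (1 : K) with hφ
  have hs : (1 : K) ∈ φ.source := mem_chart_source _ _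
  have hm : φ ∈ IsManifold.maximalAtlas (modelWithCornersSelf ℝ E) 1 K :=
    IsManifold.chart_mem_maximalAtlas (1 : K)
  set a := φ 1 with ha
  have hd := sq_deriv hm hs
  have hs1 : φ.symm a = 1 := φ.left_inv hs
  have hsa : mm φ (a, a) = a := by
    simp only [mm, hs1, mul_one]; rfl
  -- expansion
  have hev : ∀ᶠ x in 𝓝 a, (3 / 2 : ℝ) * ‖x - a‖ ≤ ‖mm φ (x, x) - a‖ := by
    have h1 := hd.isLittleO.def (show (0 : ℝ) < 1 / 2 by norm_num)
    filter_upwards [h1] with x hx
    simp only [hsa, ← ha] at hx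
    have e2 : ((2 : ℝ) • ContinuousLinearMap.id ℝ E) (x - a) = (2 : ℝ) • (x - a) := rfl
    rw [e2] at hx
    have h2 : ‖(2 : ℝ) • (x - a)‖ = 2 * ‖x - a‖ := by rw [norm_smul]; norm_num
    have h3 : ‖(2 : ℝ) • (x - a)‖ ≤ ‖mm φ (x, x) - a‖ + ‖mm φ (x, x) - a - (2 : ℝ) • (x - a)‖ := by
      have := norm_sub_le (mm φ (x, x) - a) (mm φ (x, x) - a - (2 : ℝ) • (x - a))
      rwa [sub_sub_cancel] at this
    linarith
  obtain ⟨r, hr, hball⟩ := Metric.eventually_nhds_iff_ball.1 hev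
  refine ⟨φ.source ∩ φ ⁻¹' (Metric.ball a r), ?_, ?_⟩
  · exact (φ.isOpen_inter_preimage Metric.isOpen_ball).mem_nhds
      ⟨hs, Metric.mem_ball_self hr⟩
  · intro H hH
    rw [Subgroup.eq_bot_iff_forall]
    intro g hg
    by_contra hne
    have hpow : ∀ k : ℕ, g ^ (2 ^ k) ∈ φ.source ∩ φ ⁻¹' (Metric.ball a r) := fun k =>
      hH (H.pow_mem hg _)
    have hx : 0 < ‖φ g - a‖ := by
      rw [norm_pos_iff, sub_ne_zero]
      intro h
      have h0 := hpow 0
      rw [pow_zero, pow_one] at h0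
      exact hne (φ.injOn h0.1 hs h)
    have hgrow : ∀ k : ℕ, (3 / 2 : ℝ) ^ k * ‖φ g - a‖ ≤ ‖φ (g ^ (2 ^ k)) - a‖ := by
      intro k
      induction k with
      | zero => simp
      | succ k ih =>
        have h1 := hball _ (hpow k).2
        have h2 : mm φ (φ (g ^ (2 ^ k)), φ (g ^ (2 ^ k))) = φ (g ^ (2 ^ (k + 1))) := by
          simp only [mm]
          rw [φ.left_inv (hpow k).1, ← pow_add]
          congr 2
          ring
        rw [h2] at h1
        calc (3 / 2 : ℝ) ^ (k + 1) * ‖φ g - a‖ = (3 / 2) * ((3 / 2 : ℝ) ^ k * ‖φ g - a‖) := by ring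
          _ ≤ (3 / 2) * ‖φ (g ^ (2 ^ k)) - a‖ := by linarith
          _ ≤ _ := h1
    obtain ⟨k, hk⟩ := pow_unbounded_of_one_lt (r / ‖φ g - a‖) (show (1 : ℝ) < 3 / 2 by norm_num)
    have h1 := hgrow k
    have h2 := (hpow k).2
    rw [mem_preimage, Metric.mem_ball, dist_eq_norm] at h2
    rw [div_lt_iff₀ hx] at hk
    linarith

end Pool.Agent.W486.ZQ
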